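import Pool.Agent.H369R2.Statement

/-!
# MP_db315d_nt, Q1: negative answer for every number field

For every number field `K` and every bound `c` there is a curve over `K` which is not dominated by any
modular curve `X_Γ` of congruence defect at most `c`.

Method: uniform spectral gap for the ball averaging operators on `Γ(N)\ℍ` (proved here from
scratch by a counting argument together with multiplicity bounds), a Bloch type theorem for the map
to the projective line given by the coordinate `x` of `w² = ∏ (xⁿ - 2ʲ)`, and potential theory.
-/

open scoped MatrixGroups

namespace Pool.Agent.Results.MP_db315d_nt.DefectUnbounded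

open Pool.Agent.H369R2

theorem result (K : Type) [Field K] [NumberField K] (c : ℕ) :
    ∃ (F : Type) (_ : Field F) (_ : Algebra K F), IsFunctionField K F ∧
      ∀ Γ : Subgroup SL(2, ℤ), Γ.FiniteIndex → DominatedBy Γ F → c < congruenceDefect Γ := by
  by_contra h
  push Not at h
  refine main K ⟨c, fun F iF iA hF => ?_⟩
  obtain ⟨Γ, h1, h2, h3⟩ := h F iF iA (isFunctionField_of_isCurveField hF)
  exact ⟨Γ, h1, h3, dominates_of_dominatedBy h2⟩

end Pool.Agent.Results.MP_db315d_nt.DefectUnbounded
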